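import Pool.Agent.Helper50.HT.Stmts

/-!
# Row FST of sheet HT: the arrangement as a finite set of points
-/

set_option autoImplicit false

namespace Pool.Agent.Helper83.HT

open Pool.Agent.Helper95 Pool.Agent.Helper95.PW Pool.Agent.Helper95.LN Pool.Agent.Helper50.HT

theorem nr_nonneg (x : R3) : 0 ≤ nr x := Real.sqrt_nonneg _

theorem abs_le_nr (x : R3) (i : Fin 3) : |x i| ≤ nr x := by
  unfold nr
  rw [← Real.sqrt_sq_eq_abs]
  apply Real.sqrt_le_sqrt
  fin_cases i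
  · show x 0 ^ 2 ≤ x 0 ^ 2 + x 1 ^ 2 + x 2 ^ 2
    nlinarith [sq_nonneg (x 1), sq_nonneg (x 2)]
  · show x 1 ^ 2 ≤ x 0 ^ 2 + x 1 ^ 2 + x 2 ^ 2
    nlinarith [sq_nonneg (x 0), sq_nonneg (x 2)]
  · show x 2 ^ 2 ≤ x 0 ^ 2 + x 1 ^ 2 + x 2 ^ 2
    nlinarith [sq_nonneg (x 1), sq_nonneg (x 0)]

theorem nr_le (x : R3) (c : ℝ) (hc : 0 ≤ c) (h : ∀ i, |x i| ≤ c) : nr x ≤ 2 * c := by
  unfold nr
  rw [show 2 * c = Real.sqrt ((2 * c) ^ 2) from (Real.sqrt_sq (by positivity)).symm]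
  apply Real.sqrt_le_sqrt
  have h0 := sq_le_sq' (neg_le_of_abs_le (h 0)) (le_of_abs_le (h 0))
  have h1 := sq_le_sq' (neg_le_of_abs_le (h 1)) (le_of_abs_le (h 1))
  have h2 := sq_le_sq' (neg_le_of_abs_le (h 2)) (le_of_abs_le (h 2))
  nlinarith [sq_nonneg c]

theorem nr_smul' (s : ℝ) (hs : 0 ≤ s) (x y : R3) (h : ∀ i, x i = s * y i) :
    nr x = s * nr y := by
  unfold nr
  rw [h 0, h 1, h 2]
  have e : (s * y 0) ^ 2 + (s * y 1) ^ 2 + (s * y 2) ^ 2 =
      s ^ 2 * (y 0 ^ 2 + y 1 ^ 2 + y 2 ^ 2) := by ring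
  rw [e, Real.sqrt_mul (sq_nonneg s), Real.sqrt_sq hs]

theorem nr_symm (x y : R3) : nr (x - y) = nr (y - x) := by
  unfold nr
  congr 1
  simp only [Pi.sub_apply]
  ring

theorem inA_abs {K : ℕ} {v : Fin 3 → ℤ} (h : InA K v) (i : Fin 3) :
    1 ≤ |v i| ∧ |v i| ≤ (K : ℤ) := by
  rcases h with h | h
  · obtain ⟨h1, h2⟩ := h i
    rw [abs_of_pos (by omega)]
    exact ⟨h1, h2⟩
  · obtain ⟨h1, h2⟩ := h i
    rw [abs_of_neg (by omega)]
    constructor <;> omega

theorem inB_abs {K : ℕ} {v : Fin 3 → ℤ} (h : InB K v) (i : Fin 3) :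
    1 ≤ |v i| ∧ |v i| ≤ (K : ℤ) := by
  rcases h with ⟨a1, a2, a3, a4, a5, a6⟩ | ⟨a1, a2, a3, a4, a5, a6⟩
  · fin_cases i
    · show 1 ≤ |v 0| ∧ |v 0| ≤ (K : ℤ)
      rw [abs_of_pos (by omega)]
      constructor <;> omega
    · show 1 ≤ |v 1| ∧ |v 1| ≤ (K : ℤ)
      rw [abs_of_pos (by omega)]
      constructor <;> omega
    · show 1 ≤ |v 2| ∧ |v 2| ≤ (K : ℤ)
      rw [abs_of_neg (by omega)]
      constructor <;> omega
  · fin_cases i
    · show 1 ≤ |v 0| ∧ |v 0| ≤ (K : ℤ)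
      rw [abs_of_neg (by omega)]
      constructor <;> omega
    · show 1 ≤ |v 1| ∧ |v 1| ≤ (K : ℤ)
      rw [abs_of_neg (by omega)]
      constructor <;> omega
    · show 1 ≤ |v 2| ∧ |v 2| ≤ (K : ℤ)
      rw [abs_of_pos (by omega)]
      constructor <;> omega

theorem opp {K L : ℕ} {v w : Fin 3 → ℤ} (h : InA K v) (h' : InB L w) :
    ∃ i, (1 ≤ v i ∧ w i ≤ -1) ∨ (v i ≤ -1 ∧ 1 ≤ w i) := by
  rcases h with h | h
  · rcases h' with ⟨a1, a2, a3, a4, a5, a6⟩ | ⟨a1, a2, a3, a4, a5, a6⟩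
    · exact ⟨2, Or.inl ⟨(h 2).1, a6⟩⟩
    · exact ⟨0, Or.inl ⟨(h 0).1, a2⟩⟩
  · rcases h' with ⟨a1, a2, a3, a4, a5, a6⟩ | ⟨a1, a2, a3, a4, a5, a6⟩
    · exact ⟨0, Or.inr ⟨(h 0).2, a1⟩⟩
    · exact ⟨2, Or.inr ⟨(h 2).2, a5⟩⟩

/-- the distance of an inner and an outer point -/
theorem cross_dist {K L : ℕ} {v w : Fin 3 → ℤ} (h : InA K v) (h' : InB L w) {s t : ℝ}
    (hs : 0 < s) (ht : 0 < t) : s + t ≤ nr (sc s v - sc t w) := by
  obtain ⟨i, hi⟩ := opp h h'
  refine le_trans ?_ (abs_le_nr _ i)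
  show s + t ≤ |s * (v i : ℝ) - t * (w i : ℝ)|
  rcases hi with ⟨h1, h2⟩ | ⟨h1, h2⟩
  · have h1' : (1 : ℝ) ≤ (v i : ℝ) := by exact_mod_cast h1
    have h2' : (w i : ℝ) ≤ -1 := by exact_mod_cast h2
    refine le_trans ?_ (le_abs_self _)
    nlinarith
  · have h1' : (v i : ℝ) ≤ -1 := by exact_mod_cast h1
    have h2' : (1 : ℝ) ≤ (w i : ℝ) := by exact_mod_cast h2
    refine le_trans ?_ (neg_le_abs _)
    nlinarith

theorem low_dist {v : Fin 3 → ℤ} {s : ℝ} (hs : 0 < s) (h : ∃ i, 1 ≤ |v i|) :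
    s ≤ nr (sc s v) := by
  obtain ⟨i, hi⟩ := h
  refine le_trans ?_ (abs_le_nr _ i)
  show s ≤ |s * (v i : ℝ)|
  rw [abs_mul, abs_of_pos hs]
  have : (1 : ℝ) ≤ |(v i : ℝ)| := by exact_mod_cast hi
  nlinarith

theorem up_dist {v : Fin 3 → ℤ} {s : ℝ} (hs : 0 < s) {K : ℕ} (h : ∀ i, |v i| ≤ (K : ℤ)) :
    nr (sc s v) ≤ 2 * (s * K) := by
  apply nr_le _ _ (by positivity)
  intro i
  show |s * (v i : ℝ)| ≤ s * K
  rw [abs_mul, abs_of_pos hs]
  have : |(v i : ℝ)| ≤ (K : ℝ) := by exact_mod_cast h i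
  exact mul_le_mul_of_nonneg_left this hs.le

theorem sc_sub (s : ℝ) (v w : Fin 3 → ℤ) : sc s v - sc s w = sc s (v - w) := by
  funext i
  show s * (v i : ℝ) - s * (w i : ℝ) = s * (((v - w) i : ℤ) : ℝ)
  rw [Pi.sub_apply]
  push_cast
  ring

theorem sc_neg (s : ℝ) (v : Fin 3 → ℤ) : -sc s v = sc s (-v) := by
  funext i
  show -(s * (v i : ℝ)) = s * (((-v) i : ℤ) : ℝ)
  rw [Pi.neg_apply]
  push_cast
  ring

theorem same_dist {v w : Fin 3 → ℤ} {s : ℝ} (hs : 0 < s) (h : v ≠ w) :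
    s ≤ nr (sc s v - sc s w) := by
  rw [sc_sub]
  apply low_dist hs
  obtain ⟨i, hi⟩ := Function.ne_iff.mp h
  refine ⟨i, ?_⟩
  rw [Pi.sub_apply]
  have : v i - w i ≠ 0 := sub_ne_zero.mpr hi
  have := abs_pos.mpr this
  omega

theorem sc_inj {s : ℝ} (hs : 0 < s) {v w : Fin 3 → ℤ} (h : sc s v = sc s w) : v = w := by
  by_contra hne
  have := same_dist hs hne
  rw [h, sub_self] at this
  have h0 : nr (0 : R3) = 0 := by
    unfold nr
    simp
  rw [h0] at this
  linarith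

theorem nr_zero : nr (0 : R3) = 0 := by
  unfold nr
  simp

/-- the kernel -/
noncomputable def FF (v w : R3) : ℝ := if v = w then 0 else 1 / nr (v - w)

theorem FF_nonneg (v w : R3) : 0 ≤ FF v w := by
  unfold FF
  split_ifs
  · exact le_refl 0
  · exact div_nonneg zero_le_one (nr_nonneg _)

theorem FF_le (v w : R3) : FF v w ≤ 1 / nr (v - w) := by
  unfold FF
  split_ifs
  · exact div_nonneg zero_le_one (nr_nonneg _)
  · exact le_refl _

theorem FF_symm (v w : R3) : FF v w = FF w v := by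
  unfold FF
  rw [nr_symm v w]
  by_cases h : v = w
  · rw [if_pos h, if_pos h.symm]
  · rw [if_neg h, if_neg (fun h' => h h'.symm)]

/-- block of one kind -/
theorem block_same (lat : ST_LAT) {K : ℕ} {s : ℝ} (hs : 0 < s) (A : Finset (Fin 3 → ℤ))
    (hA : ∀ v ∈ A, ∀ i, |v i| ≤ (K : ℤ)) (v : Fin 3 → ℤ) (hv : v ∈ A) :
    ∑ w ∈ A, FF (sc s v) (sc s w) ≤ 320 * (K : ℝ) ^ 2 / s := by
  have h := lat (2 * K) A v (fun w hw i => by
    have h1 := abs_le.mp (hA w hw i)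
    have h2 := abs_le.mp (hA v hv i)
    rw [abs_le]
    push_cast
    constructor <;> omega)
  have e : ∑ w ∈ A, FF (sc s v) (sc s w) =
      (∑ w ∈ A, (if w = v then 0 else 1 / nr (fun i => ((w i : ℝ) - (v i : ℝ))))) / s := by
    rw [Finset.sum_div]
    refine Finset.sum_congr rfl fun w _ => ?_
    unfold FF
    by_cases hwv : w = v
    · rw [if_pos hwv, hwv, if_pos rfl, zero_div]
    · rw [if_neg hwv, if_neg (fun h' => hwv (sc_inj hs h').symm), nr_symm]
      have : nr (sc s w - sc s v) = s * nr (fun i => ((w i : ℝ) - (v i : ℝ))) := by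
        apply nr_smul' s hs.le
        intro i
        show s * (w i : ℝ) - s * (v i : ℝ) = s * ((w i : ℝ) - (v i : ℝ))
        ring
      rw [this]
      rw [div_div, mul_comm]
  rw [e]
  apply div_le_div_of_nonneg_right _ hs.le
  refine h.trans (le_of_eq ?_)
  push_cast
  ring

theorem sum_le_const {α : Type} (A : Finset α) (f : α → ℝ) (c : ℝ) (h : ∀ a ∈ A, f a ≤ c) :
    ∑ a ∈ A, f a ≤ A.card * c := by
  have := Finset.sum_le_card_nsmul A f c h
  rwa [nsmul_eq_mul] at this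

theorem const_le_sum {α : Type} (A : Finset α) (f : α → ℝ) (c : ℝ) (h : ∀ a ∈ A, c ≤ f a) :
    A.card * c ≤ ∑ a ∈ A, f a := by
  have := Finset.card_nsmul_le_sum A f c h
  rwa [nsmul_eq_mul] at this

theorem st_FST (h1 : ST_EXA) (h2 : ST_LAT) (h3 : ST_CRS) : ST_FST := by
  classical
  refine ⟨1000, by norm_num, ?_⟩
  intro K L m e s t hs hst hK hL hKm hmL he
  have ht : 0 < t := hs.trans_le hst
  obtain ⟨⟨A, cA, inA, symA⟩, -⟩ := h1 K (K ^ 3) (le_refl _)
  obtain ⟨-, ⟨B, cB, inB, symB⟩⟩ := h1 L (m - K ^ 3) (by omega)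
  obtain ⟨O, cO, hO⟩ : ∃ O : Finset R3, O.card = e ∧ ∀ v ∈ O, v = 0 := by
    rcases Nat.le_one_iff_eq_zero_or_eq_one.mp he with h | h
    · exact ⟨∅, by rw [h]; rfl, fun v hv => absurd hv (Finset.notMem_empty v)⟩
    · exact ⟨{0}, by rw [h]; rfl, fun v hv => Finset.mem_singleton.mp hv⟩
  have absA : ∀ v ∈ A, ∀ i, |v i| ≤ (K : ℤ) := fun v hv i => (inA_abs (inA v hv) i).2
  have absB : ∀ v ∈ B, ∀ i, |v i| ≤ (L : ℤ) := fun v hv i => (inB_abs (inB v hv) i).2
  have lowA : ∀ v ∈ A, s ≤ nr (sc s v) := fun v hv =>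
    low_dist hs ⟨0, (inA_abs (inA v hv) 0).1⟩
  have lowB : ∀ v ∈ B, t ≤ nr (sc t v) := fun v hv =>
    low_dist ht ⟨0, (inB_abs (inB v hv) 0).1⟩
  have injA : Set.InjOn (sc s) (A : Set (Fin 3 → ℤ)) := fun v _ w _ h => sc_inj hs h
  have injB : Set.InjOn (sc t) (B : Set (Fin 3 → ℤ)) := fun v _ w _ h => sc_inj ht h
  have disAB : Disjoint (A.image (sc s)) (B.image (sc t)) := by
    rw [Finset.disjoint_left]
    intro x hx hx'
    obtain ⟨v, hv, rfl⟩ := Finset.mem_image.mp hx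
    obtain ⟨w, hw, hwv⟩ := Finset.mem_image.mp hx'
    have := cross_dist (inA v hv) (inB w hw) hs ht
    rw [hwv, sub_self, nr_zero] at this
    linarith
  have disO : Disjoint (A.image (sc s) ∪ B.image (sc t)) O := by
    rw [Finset.disjoint_left]
    intro x hx hx'
    rw [hO x hx'] at hx
    rcases Finset.mem_union.mp hx with h | h
    · obtain ⟨v, hv, hv0⟩ := Finset.mem_image.mp h
      have := lowA v hv
      rw [hv0, nr_zero] at this
      linarith
    · obtain ⟨v, hv, hv0⟩ := Finset.mem_image.mp h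
      have := lowB v hv
      rw [hv0, nr_zero] at this
      linarith
  have hsum : ∀ f : R3 → ℝ, ∑ v ∈ A.image (sc s) ∪ B.image (sc t) ∪ O, f v =
      ∑ v ∈ A, f (sc s v) + ∑ w ∈ B, f (sc t w) + ∑ o ∈ O, f o := by
    intro f
    rw [Finset.sum_union disO, Finset.sum_union disAB, Finset.sum_image injA,
      Finset.sum_image injB]
  have cA' : (A.card : ℝ) = 2 * (K : ℝ) ^ 3 := by rw [cA]; push_cast; ring
  have cBL : (B.card : ℝ) ≤ 2 * (L : ℝ) ^ 3 := by
    have : B.card ≤ 2 * L ^ 3 := by rw [cB]; omega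
    exact_mod_cast this
  have cBm : (B.card : ℝ) ≤ 2 * (m : ℝ) := by
    have : B.card ≤ 2 * m := by rw [cB]; omega
    exact_mod_cast this
  have cO' : (O.card : ℝ) ≤ 1 := by rw [cO]; exact_mod_cast he
  have hK1 : (1 : ℝ) ≤ (K : ℝ) := by exact_mod_cast hK
  have hL1 : (1 : ℝ) ≤ (L : ℝ) := by exact_mod_cast hL
  -- membership
  have mem : ∀ v ∈ A.image (sc s) ∪ B.image (sc t) ∪ O,
      (∃ a ∈ A, v = sc s a) ∨ (∃ b ∈ B, v = sc t b) ∨ v = 0 := by
    intro v hv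
    rcases Finset.mem_union.mp hv with h | h
    · rcases Finset.mem_union.mp h with h | h
      · obtain ⟨a, ha, h⟩ := Finset.mem_image.mp h
        exact Or.inl ⟨a, ha, h.symm⟩
      · obtain ⟨a, ha, h⟩ := Finset.mem_image.mp h
        exact Or.inr (Or.inl ⟨a, ha, h.symm⟩)
    · exact Or.inr (Or.inr (hO v h))
  -- the radii
  let r : R3 → ℝ := fun v => if v ∈ B.image (sc t) then t / 6 else s / 6
  have rA : ∀ a ∈ A, r (sc s a) = s / 6 := by
    intro a ha
    have : sc s a ∉ B.image (sc t) := fun h =>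
      Finset.disjoint_left.mp disAB (Finset.mem_image_of_mem _ ha) h
    simp only [r, if_neg this]
  have rB : ∀ b ∈ B, r (sc t b) = t / 6 := by
    intro b hb
    simp only [r, if_pos (Finset.mem_image_of_mem _ hb)]
  have r0 : r 0 = s / 6 := by
    have : (0 : R3) ∉ B.image (sc t) := by
      intro h
      obtain ⟨v, hv, hv0⟩ := Finset.mem_image.mp h
      have := lowB v hv
      rw [hv0, nr_zero] at this
      linarith
    simp only [r, if_neg this]
  refine ⟨A.image (sc s) ∪ B.image (sc t) ∪ O, r, ?_, ?_, ?_, ?_, ?_, ?_, ?_, ?_, ?_⟩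
  · rw [Finset.card_union_of_disjoint disO, Finset.card_union_of_disjoint disAB,
      Finset.card_image_of_injOn injA, Finset.card_image_of_injOn injB, cA, cB, cO]
    omega
  · intro v hv
    rcases Finset.mem_union.mp hv with h | h
    · rcases Finset.mem_union.mp h with h | h
      · obtain ⟨a, ha, rfl⟩ := Finset.mem_image.mp h
        rw [sc_neg]
        exact Finset.mem_union_left _ (Finset.mem_union_left _
          (Finset.mem_image_of_mem _ (symA a ha)))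
      · obtain ⟨a, ha, rfl⟩ := Finset.mem_image.mp h
        rw [sc_neg]
        exact Finset.mem_union_left _ (Finset.mem_union_right _
          (Finset.mem_image_of_mem _ (symB a ha)))
    · have : -v = v := by rw [hO v h, neg_zero]
      rw [this]
      exact hv
  · intro v hv
    rcases mem v hv with ⟨a, ha, rfl⟩ | ⟨b, hb, rfl⟩ | rfl
    · rw [rA a ha]; constructor <;> linarith
    · rw [rB b hb]; constructor <;> linarith
    · rw [r0]; constructor <;> linarith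
  · intro v hv
    have hsK : 0 ≤ s * (K : ℝ) := by positivity
    have htL : 0 ≤ t * (L : ℝ) := by positivity
    rcases mem v hv with ⟨a, ha, rfl⟩ | ⟨b, hb, rfl⟩ | rfl
    · have := up_dist hs (absA a ha)
      linarith
    · have := up_dist ht (absB b hb)
      linarith
    · rw [nr_zero]; linarith
  · intro v hv
    rcases mem v hv with ⟨a, ha, rfl⟩ | ⟨b, hb, rfl⟩ | rfl
    · right
      have := lowA a ha
      rw [rA a ha]; linarith
    · right
      have := lowB b hb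
      rw [rB b hb]; linarith
    · left; rfl
  · intro v hv w hw hvw
    rcases mem v hv with ⟨a, ha, rfl⟩ | ⟨b, hb, rfl⟩ | rfl
    · rcases mem w hw with ⟨a', ha', rfl⟩ | ⟨b', hb', rfl⟩ | rfl
      · have := same_dist hs (fun h : a = a' => hvw (by rw [h]))
        rw [rA a ha, rA a' ha']; linarith
      · have := cross_dist (inA a ha) (inB b' hb') hs ht
        rw [rA a ha, rB b' hb']; linarith
      · have := lowA a ha
        rw [rA a ha, r0, sub_zero]; linarith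
    · rcases mem w hw with ⟨a', ha', rfl⟩ | ⟨b', hb', rfl⟩ | rfl
      · have := cross_dist (inA a' ha') (inB b hb) hs ht
        rw [nr_symm] at this
        rw [rB b hb, rA a' ha']; linarith
      · have := same_dist ht (fun h : b = b' => hvw (by rw [h]))
        rw [rB b hb, rB b' hb']; linarith
      · have := lowB b hb
        rw [rB b hb, r0, sub_zero]; linarith
    · rcases mem w hw with ⟨a', ha', rfl⟩ | ⟨b', hb', rfl⟩ | rfl
      · have := lowA a' ha'
        rw [nr_symm, rA a' ha', r0, sub_zero]; linarith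
      · have := lowB b' hb'
        rw [nr_symm, rB b' hb', r0, sub_zero]; linarith
      · exact absurd rfl hvw
  · -- the kinetic sum
    rw [hsum]
    have e1 : ∑ v ∈ A, 1 / r (sc s v) ^ 2 ≤ A.card * (36 / s ^ 2) :=
      sum_le_const A _ _ fun a ha => by rw [rA a ha]; apply le_of_eq; field_simp; try norm_num
    have e2 : ∑ v ∈ B, 1 / r (sc t v) ^ 2 ≤ B.card * (36 / t ^ 2) :=
      sum_le_const B _ _ fun a ha => by rw [rB a ha]; apply le_of_eq; field_simp; try norm_num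
    have e3 : ∑ v ∈ O, 1 / r v ^ 2 ≤ O.card * (36 / s ^ 2) :=
      sum_le_const O _ _ fun a ha => by
        rw [hO a ha, r0]; apply le_of_eq; field_simp; try norm_num
    have hs2 : 0 < 36 / s ^ 2 := by positivity
    have ht2 : 0 < 36 / t ^ 2 := by positivity
    have f2 : (B.card : ℝ) * (36 / t ^ 2) ≤ 2 * (m : ℝ) * (36 / t ^ 2) :=
      mul_le_mul_of_nonneg_right cBm ht2.le
    have f3 : (O.card : ℝ) * (36 / s ^ 2) ≤ (K : ℝ) ^ 3 * (36 / s ^ 2) :=
      mul_le_mul_of_nonneg_right (cO'.trans (one_le_pow₀ hK1)) hs2.le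
    rw [cA'] at e1
    have g1 : (1000 : ℝ) * ((K : ℝ) ^ 3 / s ^ 2 + m / t ^ 2) =
        (2 * (K : ℝ) ^ 3 * (36 / s ^ 2) + 2 * (m : ℝ) * (36 / t ^ 2) +
          (K : ℝ) ^ 3 * (36 / s ^ 2)) + (892 * ((K : ℝ) ^ 3 / s ^ 2) + 928 * (m / t ^ 2)) := by
      ring
    have g2 : 0 ≤ 892 * ((K : ℝ) ^ 3 / s ^ 2) + 928 * ((m : ℝ) / t ^ 2) := by positivity
    rw [g1]
    linarith
  · -- the attraction
    rw [hsum]
    have e1 : A.card * (1 / (2 * (s * K))) ≤ ∑ v ∈ A, 1 / nr (sc s v) :=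
      const_le_sum A _ _ fun a ha => by
        apply one_div_le_one_div_of_le (hs.trans_le (lowA a ha)) (up_dist hs (absA a ha))
    have e2 : 0 ≤ ∑ v ∈ B, 1 / nr (sc t v) :=
      Finset.sum_nonneg fun v _ => div_nonneg zero_le_one (nr_nonneg _)
    have e3 : 0 ≤ ∑ v ∈ O, 1 / nr v :=
      Finset.sum_nonneg fun v _ => div_nonneg zero_le_one (nr_nonneg _)
    rw [cA'] at e1
    have hK0 : (K : ℝ) ≠ 0 := by positivity
    have g : 2 * (K : ℝ) ^ 3 * (1 / (2 * (s * K))) = (K : ℝ) ^ 2 / s := by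
      field_simp
    rw [g] at e1
    linarith
  · -- the repulsion
    show ∑ v ∈ A.image (sc s) ∪ B.image (sc t) ∪ O, ∑ w ∈ A.image (sc s) ∪ B.image (sc t) ∪ O,
      FF v w ≤ _
    rw [hsum]
    simp_rw [hsum]
    rw [Finset.sum_add_distrib, Finset.sum_add_distrib, Finset.sum_add_distrib,
      Finset.sum_add_distrib, Finset.sum_add_distrib, Finset.sum_add_distrib]
    set X : ℝ := 4 * (L : ℝ) ^ 2 * Real.sqrt L / t with hX
    have X0 : 0 ≤ X := by positivity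
    have AA : ∑ v ∈ A, ∑ w ∈ A, FF (sc s v) (sc s w) ≤ A.card * (320 * (K : ℝ) ^ 2 / s) :=
      sum_le_const A _ _ fun v hv => block_same h2 hs A absA v hv
    have BB : ∑ v ∈ B, ∑ w ∈ B, FF (sc t v) (sc t w) ≤ B.card * (320 * (L : ℝ) ^ 2 / t) :=
      sum_le_const B _ _ fun v hv => block_same h2 ht B absB v hv
    have AB : ∑ v ∈ A, ∑ w ∈ B, FF (sc s v) (sc t w) ≤ A.card * X :=
      sum_le_const A _ _ fun v hv =>
        (Finset.sum_le_sum fun w _ => FF_le _ _).trans (h3 K L s t v B hs ht (inA v hv) inB)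
    have BA : ∑ v ∈ B, ∑ w ∈ A, FF (sc t v) (sc s w) ≤ A.card * X := by
      rw [Finset.sum_comm]
      refine sum_le_const A _ _ fun v hv => ?_
      refine (Finset.sum_le_sum fun w _ => ?_).trans (h3 K L s t v B hs ht (inA v hv) inB)
      rw [FF_symm]
      exact FF_le _ _
    have AO : ∑ v ∈ A, ∑ o ∈ O, FF (sc s v) o ≤ A.card * (1 / s) :=
      sum_le_const A _ _ fun v hv => by
        refine (sum_le_const O _ (1 / s) fun o ho => ?_).trans ?_
        · refine (FF_le _ _).trans ?_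
          rw [hO o ho, sub_zero]
          exact one_div_le_one_div_of_le hs (lowA v hv)
        · have : (0 : ℝ) ≤ 1 / s := by positivity
          nlinarith
    have BO : ∑ v ∈ B, ∑ o ∈ O, FF (sc t v) o ≤ B.card * (1 / t) :=
      sum_le_const B _ _ fun v hv => by
        refine (sum_le_const O _ (1 / t) fun o ho => ?_).trans ?_
        · refine (FF_le _ _).trans ?_
          rw [hO o ho, sub_zero]
          exact one_div_le_one_div_of_le ht (lowB v hv)
        · have : (0 : ℝ) ≤ 1 / t := by positivity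
          nlinarith
    have OA : ∑ o ∈ O, ∑ v ∈ A, FF o (sc s v) ≤ A.card * (1 / s) := by
      rw [Finset.sum_comm]
      refine le_trans (le_of_eq ?_) AO
      exact Finset.sum_congr rfl fun v _ => Finset.sum_congr rfl fun o _ => FF_symm _ _
    have OB : ∑ o ∈ O, ∑ v ∈ B, FF o (sc t v) ≤ B.card * (1 / t) := by
      rw [Finset.sum_comm]
      refine le_trans (le_of_eq ?_) BO
      exact Finset.sum_congr rfl fun v _ => Finset.sum_congr rfl fun o _ => FF_symm _ _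
    have OO : ∑ o ∈ O, ∑ o' ∈ O, FF o o' ≤ 0 := by
      apply Finset.sum_nonpos
      intro o ho
      apply Finset.sum_nonpos
      intro o' ho'
      rw [hO o ho, hO o' ho']
      unfold FF
      rw [if_pos rfl]
    rw [cA'] at AA AB BA AO OA
    have hB1 : (B.card : ℝ) * (320 * (L : ℝ) ^ 2 / t) ≤
        2 * (L : ℝ) ^ 3 * (320 * (L : ℝ) ^ 2 / t) :=
      mul_le_mul_of_nonneg_right cBL (by positivity)
    have hB2 : (B.card : ℝ) * (1 / t) ≤ 2 * (L : ℝ) ^ 3 * (1 / t) :=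
      mul_le_mul_of_nonneg_right cBL (by positivity)
    have hK35 : (K : ℝ) ^ 3 * (1 / s) ≤ (K : ℝ) ^ 5 * (1 / s) :=
      mul_le_mul_of_nonneg_right (pow_le_pow_right₀ hK1 (by norm_num)) (by positivity)
    have hL35 : (L : ℝ) ^ 3 * (1 / t) ≤ (L : ℝ) ^ 5 * (1 / t) :=
      mul_le_mul_of_nonneg_right (pow_le_pow_right₀ hL1 (by norm_num)) (by positivity)
    have g1 : 2 * (K : ℝ) ^ 3 * (320 * (K : ℝ) ^ 2 / s) = 640 * ((K : ℝ) ^ 5 * (1 / s)) := by
      ring
    have g2 : 2 * (L : ℝ) ^ 3 * (320 * (L : ℝ) ^ 2 / t) = 640 * ((L : ℝ) ^ 5 * (1 / t)) := by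
      ring
    have g3 : 2 * (K : ℝ) ^ 3 * X =
        8 * ((K : ℝ) ^ 3 * ((L : ℝ) ^ 2 * Real.sqrt L) / t) := by
      rw [hX]; ring
    have g4 : (1000 : ℝ) * ((K : ℝ) ^ 5 / s + (K : ℝ) ^ 3 * ((L : ℝ) ^ 2 * Real.sqrt L) / t +
        (L : ℝ) ^ 5 / t) = 1000 * ((K : ℝ) ^ 5 * (1 / s)) +
        1000 * ((K : ℝ) ^ 3 * ((L : ℝ) ^ 2 * Real.sqrt L) / t) +
        1000 * ((L : ℝ) ^ 5 * (1 / t)) := by ring
    have p1 : 0 ≤ (K : ℝ) ^ 5 * (1 / s) := by positivity
    have p2 : 0 ≤ (K : ℝ) ^ 3 * ((L : ℝ) ^ 2 * Real.sqrt L) / t := by positivity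
    have p3 : 0 ≤ (L : ℝ) ^ 5 * (1 / t) := by positivity
    rw [g4]
    rw [g1] at AA
    rw [g2] at hB1
    rw [g3] at AB BA
    nlinarith

end Pool.Agent.Helper83.HT
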